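import Pool.Agent.MRS.Top

/-!
# MP_43aa00_an: multiple recurrence along the primes for `a(t) = α t + (slow)`, all `k`

`a` in a Hardy field with `|a - c q| → ∞` for all real `c` and all `q ∈ ℤ[t]`, and
`|(a(t) - α t) / log t|` not tending to infinity for some real `α` (for instance
`a(t) = √2 t + log t`, `t - log t`, `3 t + log log t`, `log t`): exactly the functions with linear
main part which are outside the known theorem.  Then for every `k`, every invertible probability
preserving `T` and every `A` with `μ A > 0` there are arbitrarily large primes `p` with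
`μ (⋂_{i ≤ k} T^{-i |⌊a p⌋|} A) > 0`.
-/

set_option autoImplicit false

namespace Pool.Agent.Results.MP_43aa00_an.AllKLinearPlusSlow

theorem result :
    ∀ a : ℝ → ℝ,
    (∃ S : Subring (Filter.Germ (Filter.atTop : Filter ℝ) ℝ),
        (a : Filter.Germ (Filter.atTop : Filter ℝ) ℝ) ∈ S ∧
        (∀ g ∈ S, g ≠ 0 → ∃ h ∈ S, g * h = 1) ∧
        (∀ g ∈ S, ∃ f : ℝ → ℝ, (f : Filter.Germ (Filter.atTop : Filter ℝ) ℝ) = g ∧
            (∀ᶠ t in Filter.atTop, DifferentiableAt ℝ f t) ∧
            ((deriv f : ℝ → ℝ) : Filter.Germ (Filter.atTop : Filter ℝ) ℝ) ∈ S)) →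
    (∀ c : ℝ, ∀ p : Polynomial ℤ,
        Filter.Tendsto (fun t : ℝ => |a t - c * Polynomial.aeval t p|)
          Filter.atTop Filter.atTop) →
    (∃ α : ℝ, ¬ Filter.Tendsto (fun t : ℝ => |(a t - α * t) / Real.log t|)
          Filter.atTop Filter.atTop) →
    ∀ k : ℕ, ∀ (X : Type) [MeasurableSpace X] (μ : MeasureTheory.Measure X)
      [MeasureTheory.IsProbabilityMeasure μ] (T : X ≃ᵐ X),
      MeasureTheory.MeasurePreserving T μ μ →
      ∀ A : Set X, MeasurableSet A → 0 < μ A → ∀ N : ℕ,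
        ∃ p : ℕ, p.Prime ∧ N ≤ p ∧
          0 < μ (⋂ i ∈ Finset.range (k + 1),
            ((⇑T)^[i * (⌊a (p : ℝ)⌋).natAbs] ⁻¹' A)) :=
  Pool.Agent.MRS.finalStmt

end Pool.Agent.Results.MP_43aa00_an.AllKLinearPlusSlow
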