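import Pool.Agent.RHN.Main

/-!
# MP_43aa00_an: Khintchine recurrence along the primes for the open class of Hardy functions

`a` in a Hardy field, of polynomial growth, with `|a - c q| → ∞` for all real `c` and all
`q ∈ ℤ[t]`, and *not* satisfying the stronger known condition (there are `c`, `q` such that
`|(a - c q) / log|` does not tend to infinity; for instance `t ^ 4 + log t` or
`t ^ 2 + log log (5 t)`).  Then `(⌊a p⌋)`, `p` prime, is a van der Corput sequence in the strongest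
form, and the single recurrence (the case `k = 1` of Q1) holds with the optimal lower bound
`μ(A)² - ε`.
-/

set_option autoImplicit false

namespace Pool.Agent.Results.MP_43aa00_an.KhintchineAlongPrimes

theorem result :
    ∀ a : ℝ → ℝ,
    (∃ S : Subring (Filter.Germ (Filter.atTop : Filter ℝ) ℝ),
        (a : Filter.Germ (Filter.atTop : Filter ℝ) ℝ) ∈ S ∧
        (∀ g ∈ S, g ≠ 0 → ∃ h ∈ S, g * h = 1) ∧
        (∀ g ∈ S, ∃ f : ℝ → ℝ, (f : Filter.Germ (Filter.atTop : Filter ℝ) ℝ) = g ∧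
            (∀ᶠ t in Filter.atTop, DifferentiableAt ℝ f t) ∧
            ((deriv f : ℝ → ℝ) : Filter.Germ (Filter.atTop : Filter ℝ) ℝ) ∈ S)) →
    (∀ c : ℝ, ∀ p : Polynomial ℤ,
        Filter.Tendsto (fun t : ℝ => |a t - c * Polynomial.aeval t p|)
          Filter.atTop Filter.atTop) →
    (∃ c : ℝ, ∃ p : Polynomial ℤ,
        ¬ Filter.Tendsto (fun t : ℝ => |(a t - c * Polynomial.aeval t p) / Real.log t|)
          Filter.atTop Filter.atTop) →
    (∀ (σ : MeasureTheory.Measure UnitAddCircle) [MeasureTheory.IsFiniteMeasure σ] (ε : ℝ),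
        0 < ε → ∀ N : ℕ, ∃ p : ℕ, p.Prime ∧ N ≤ p ∧
          σ.real {0} - ε < (∫ ξ, fourier ⌊a (p : ℝ)⌋ ξ ∂σ).re) ∧
    (∀ (X : Type) [MeasurableSpace X] (μ : MeasureTheory.Measure X)
      [MeasureTheory.IsProbabilityMeasure μ] (T : X → X),
      MeasureTheory.MeasurePreserving T μ μ →
      ∀ A : Set X, MeasurableSet A → ∀ ε : ℝ, 0 < ε → ∀ N : ℕ,
        ∃ p : ℕ, p.Prime ∧ N ≤ p ∧
          μ.real A ^ 2 - ε < μ.real (A ∩ (T^[(⌊a (p : ℝ)⌋).natAbs]) ⁻¹' A)) := by
  rintro a ⟨S, ha, hinv, hder⟩ hinf ⟨c, q, hslow⟩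
  refine ⟨?_, ?_⟩
  · intro σ hσ ε hε N
    exact Pool.Agent.RHN.spectral (S := S) ⟨hinv, hder⟩ ha c q (hinf c q) hslow σ ε hε N
  · intro X _ μ _ T hT A hA ε hε N
    exact Pool.Agent.RHN.ergodic (S := S) ⟨hinv, hder⟩ ha c q (hinf c q) hslow μ T hT A hA ε hε N

end Pool.Agent.Results.MP_43aa00_an.KhintchineAlongPrimes
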